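import Pool.Agent.H657R2.Mem

/-!
# A polynomial-time online learner for disjunctions with competitive ratio `O(√n)`

The learner works in phases. In a phase every one of the `2n` literals has a stock of `16 s²`
tokens (`s = ⌊√n⌋ + 1`); a literal is alive as long as it has tokens. If more than `s` alive
literals are true on the example, the learner predicts `1` (a heavy prediction), and if this is a
mistake every alive true literal loses a token. Otherwise the learner predicts by a linear
threshold function with the features given by the alive literals and a bias; the weights are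
updated additively (as in the perceptron algorithm) after a mistake. After `96 s³` mistakes a
phase is over. Every phase in which the best disjunction makes less than `16 s²` mistakes has
less than `96 s³` mistakes, so the overhead of the completed phases is `(96 s³ + 1)/(16 s²)`
mistakes for every mistake of the best disjunction.

The polynomial time bound is proved for multi-stack Turing machines (`Turing.TM2`), with the
library `Pool.Agent.H685R2.Poly`.
-/

namespace Pool.Agent.Results.MP_eeb244_lc.SqrtCompetitive

/-- A deterministic online learner. Its memory is a string, which is empty at the beginning;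
`predict m x` is the prediction on the example `x` when the memory is `m`, and `update m x y` is
the new memory after the label `y` of `x` has been revealed. -/
structure Learner where
  /-- the prediction, from the memory and the example -/
  predict : List Bool → List Bool → Bool
  /-- the new memory, from the memory, the example and its label -/
  update : List Bool → List Bool → Bool → List Bool

/-- labelled sequences over `{0,1}^n` -/
abbrev Sample (n : ℕ) : Type := List ((Fin n → Bool) × Bool)

/-- The memory after the labelled sequence `S`. -/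
def Learner.memory (A : Learner) {n : ℕ} (S : Sample n) : List Bool :=
  S.foldl (fun m a => A.update m (List.ofFn a.1) a.2) []

/-- The number of mistakes on `S` when the memory is `m` at the beginning. -/
def Learner.mistakesFrom (A : Learner) {n : ℕ} : List Bool → Sample n → ℕ
  | _, [] => 0
  | m, a :: S => (if A.predict m (List.ofFn a.1) = a.2 then 0 else 1) +
      A.mistakesFrom (A.update m (List.ofFn a.1) a.2) S

/-- The number of mistakes on the labelled sequence `S`. -/
def Learner.mistakes (A : Learner) {n : ℕ} (S : Sample n) : ℕ := A.mistakesFrom [] S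

/-- Self-delimiting pairing of two strings: every bit of `x` is preceded by `1`, then comes a `0`,
then `m`. -/
def pair (x m : List Bool) : List Bool := x.flatMap (fun b => [true, b]) ++ false :: m

/-- The learner runs in polynomial time: predictions and updates are computed by Turing machines
in polynomial time in the length of the example and the memory, and the length of the memory is
bounded by a polynomial in `n`. -/
structure Learner.PolyTime (A : Learner) : Prop where
  /-- predictions are computable in polynomial time -/
  predict : Nonempty (Turing.TM2ComputableInPolyTime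
    (fun a : List Bool × List Bool => pair a.2 a.1) (fun b : Bool => [b])
    (fun a => A.predict a.1 a.2))
  /-- updates are computable in polynomial time -/
  update : Nonempty (Turing.TM2ComputableInPolyTime
    (fun a : List Bool × List Bool × Bool => a.2.2 :: pair a.2.1 a.1)
    (fun m : List Bool => m) (fun a => A.update a.1 a.2.1 a.2.2))
  /-- the memory is polynomially bounded -/
  memory : ∃ p : Polynomial ℕ, ∀ (n : ℕ) (S : Sample n), (A.memory S).length ≤ p.eval n

/-- The disjunction of a set of literals; `(i, true)` is the variable `x i`, `(i, false)` its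
negation. -/
def disj {n : ℕ} (R : Finset (Fin n × Bool)) (x : Fin n → Bool) : Bool :=
  decide (∃ a ∈ R, x a.1 = a.2)

/-- The number of trials on which the disjunction errs. -/
def errors {n : ℕ} (R : Finset (Fin n × Bool)) (S : Sample n) : ℕ :=
  S.countP (fun a => decide (disj R a.1 ≠ a.2))

/-- `m_disj(S)`: the least number of errors of a disjunction. -/
noncomputable def mdisj {n : ℕ} (S : Sample n) : ℕ :=
  ⨅ R : Finset (Fin n × Bool), errors R S

/-- the learner -/
def learner : Learner := ⟨H657R2.predM, H657R2.updM⟩

open H657R2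

lemma learner_run {n : ℕ} (R : Finset (Fin n × Bool)) (S : Sample n) :
    ∀ (l : List ℕ) (mt M : ℕ), GInv n (R.image litIdx) l mt M →
      ∃ l', GInv n (R.image litIdx) l' (mt + errors R S)
        (M + learner.mistakesFrom (encL l) S) := by
  induction S with
  | nil => intro l mt M h; exact ⟨l, h⟩
  | cons a S ih =>
    intro l mt M h
    have h1 := h.step R a.1 a.2
    obtain ⟨l', h2⟩ := ih _ _ _ h1
    refine ⟨l', ?_⟩
    have e1 : learner.update (encL l) (List.ofFn a.1) a.2 =
        encL (updL (List.ofFn a.1) l a.2) := by
      change encL (updL (List.ofFn a.1) (decL (encL l)) a.2) = _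
      rw [decL_encL]
    have e2 : learner.predict (encL l) (List.ofFn a.1) = pred (List.ofFn a.1) l := by
      change pred (List.ofFn a.1) (decL (encL l)) = _
      rw [decL_encL]
    have e3 : learner.mistakesFrom (encL l) (a :: S) =
        (if pred (List.ofFn a.1) l = a.2 then 0 else 1) +
          learner.mistakesFrom (encL (updL (List.ofFn a.1) l a.2)) S := by
      rw [Learner.mistakesFrom, e1, e2]
    have e4 : errors R (a :: S) = (if H657R2.disj R a.1 = a.2 then 0 else 1) + errors R S := by
      unfold errors
      rw [List.countP_cons, Nat.add_comm]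
      congr 1
      change (if decide (H657R2.disj R a.1 ≠ a.2) = true then 1 else 0) = _
      by_cases h : H657R2.disj R a.1 = a.2 <;> simp [h]
    rw [e3, e4, ← Nat.add_assoc, ← Nat.add_assoc]
    exact h2

lemma learner_memory {n : ℕ} (S : Sample n) : ∀ l : List ℕ, MInv n l →
    ∃ l', MInv n l' ∧
      S.foldl (fun m a => learner.update m (List.ofFn a.1) a.2) (encL l) = encL l' := by
  induction S with
  | nil => intro l h; exact ⟨l, h, rfl⟩
  | cons a S ih =>
    intro l h
    obtain ⟨l', h1, h2⟩ := ih _ (h.step a.1 a.2)
    refine ⟨l', h1, ?_⟩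
    rw [List.foldl_cons]
    have e1 : learner.update (encL l) (List.ofFn a.1) a.2 =
        encL (updL (List.ofFn a.1) l a.2) := by
      change encL (updL (List.ofFn a.1) (decL (encL l)) a.2) = _
      rw [decL_encL]
    rw [e1, h2]

lemma learner_polyTime : learner.PolyTime where
  predict := predM_polyTime
  update := updM_polyTime
  memory := by
    refine ⟨3 * (2 * Polynomial.X + 1) * (96 * (Polynomial.X + 1) ^ 3 + 1), fun n S => ?_⟩
    obtain ⟨l', h1, h2⟩ := learner_memory S [] (MInv.nil n)
    have h3 : learner.memory S = encL l' := h2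
    rw [h3]
    have h4 := h1.encL_length
    simpa using h4

lemma mistakes_nat {n : ℕ} (S : Sample n) (R : Finset (Fin n × Bool)) :
    16 * (H657R2.sq n * H657R2.sq n) * learner.mistakes S ≤ (96 * (H657R2.sq n * (H657R2.sq n * H657R2.sq n)) + 1) * errors R S +
      16 * (H657R2.sq n * H657R2.sq n) * (96 * (H657R2.sq n * (H657R2.sq n * H657R2.sq n)) + 1) := by
  have h0 : GInv n (R.image litIdx) [] 0 0 := Or.inl ⟨by simp [kap], by simp⟩
  obtain ⟨l', h⟩ := learner_run R S [] 0 0 h0
  have h1 := h.final
  rw [Nat.zero_add, Nat.zero_add] at h1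
  exact h1

lemma mistakes_real {n : ℕ} (S : Sample n) :
    (learner.mistakes S : ℝ) ≤ (6 * √n + 7) * mdisj S + (96 * (√n + 1) ^ 3 + 1) := by
  obtain ⟨R, hR⟩ : ∃ R : Finset (Fin n × Bool), errors R S = mdisj S := by
    have := Nat.sInf_mem (s := Set.range fun R : Finset (Fin n × Bool) => errors R S)
      (Set.range_nonempty _)
    exact this
  have h := mistakes_nat S R
  rw [hR] at h
  set m := mdisj S
  have hs : (H657R2.sq n : ℝ) ≤ √n + 1 := by
    rw [sq_eq]
    push_cast
    have := Real.nat_sqrt_le_real_sqrt (a := n)
    linarith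
  have hs1 : (1 : ℝ) ≤ H657R2.sq n := by exact_mod_cast one_le_sq n
  have h' : (16 * ((H657R2.sq n : ℝ) * H657R2.sq n)) * learner.mistakes S ≤
      (96 * ((H657R2.sq n : ℝ) * (H657R2.sq n * H657R2.sq n)) + 1) * m +
        16 * ((H657R2.sq n : ℝ) * H657R2.sq n) * (96 * (H657R2.sq n * (H657R2.sq n * H657R2.sq n)) + 1) := by
    exact_mod_cast h
  set s : ℝ := (H657R2.sq n : ℝ)
  have hm : (0 : ℝ) ≤ m := Nat.cast_nonneg _
  have hpos : 0 < 16 * (s * s) := by positivity
  have h2 : (learner.mistakes S : ℝ) ≤ (6 * s + 1) * m + (96 * s ^ 3 + 1) := by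
    have h3 : (96 * (s * (s * s)) + 1) * (m : ℝ) ≤ 16 * (s * s) * ((6 * s + 1) * m) := by
      have : (1 : ℝ) * m ≤ 16 * (s * s) * m := by
        apply mul_le_mul_of_nonneg_right _ hm
        nlinarith
      nlinarith
    have h4 : 16 * (s * s) * (learner.mistakes S : ℝ) ≤
        16 * (s * s) * ((6 * s + 1) * m + (96 * s ^ 3 + 1)) := by
      refine h'.trans ?_
      linarith
    exact le_of_mul_le_mul_left h4 hpos
  refine h2.trans (add_le_add ?_ ?_)
  · apply mul_le_mul_of_nonneg_right _ hm
    linarith
  · have : s ^ 3 ≤ (√n + 1) ^ 3 := by gcongr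
    linarith

/-- **Theorem.** There is a polynomial-time online learner that on every labelled sequence `S`
over `{0,1}^n` makes at most `(6√n + 7) m_disj(S) + 96 (√n + 1)³ + 1` mistakes. In particular,
for every `α > 1/2` and all sufficiently large `n`, it makes at most `n^α m_disj(S) + 769 n²`
mistakes. -/
theorem result : ∃ A : Learner, A.PolyTime ∧
    (∀ (n : ℕ) (S : Sample n),
      (A.mistakes S : ℝ) ≤ (6 * √n + 7) * mdisj S + (96 * (√n + 1) ^ 3 + 1)) ∧
    ∀ α : ℝ, 1 / 2 < α → ∃ n₀ : ℕ, ∀ n : ℕ, n₀ ≤ n → ∀ S : Sample n,
      (A.mistakes S : ℝ) ≤ (n : ℝ) ^ α * mdisj S + 769 * (n : ℝ) ^ 2 := by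
  refine ⟨learner, learner_polyTime, fun n S => mistakes_real S, fun α hα => ?_⟩
  have ht : Filter.Tendsto (fun n : ℕ => (n : ℝ) ^ (α - 1 / 2)) Filter.atTop Filter.atTop :=
    (tendsto_rpow_atTop (by linarith)).comp tendsto_natCast_atTop_atTop
  obtain ⟨n₁, hn₁⟩ := Filter.eventually_atTop.1 (ht.eventually_ge_atTop 13)
  refine ⟨max n₁ 1, fun n hn S => ?_⟩
  have h1 : (1 : ℝ) ≤ n := by exact_mod_cast (le_max_right _ _).trans hn
  have h2 := hn₁ n ((le_max_left _ _).trans hn)
  have h3 : (1 : ℝ) ≤ √n := Real.one_le_sqrt.2 h1
  have h4 : √(n : ℝ) ^ 2 = n := Real.sq_sqrt (by linarith)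
  have h5 : (n : ℝ) ^ α = (n : ℝ) ^ (α - 1 / 2) * √n := by
    rw [Real.sqrt_eq_rpow, ← Real.rpow_add (by linarith)]
    congr 1
    ring
  refine (mistakes_real S).trans (add_le_add ?_ ?_)
  · apply mul_le_mul_of_nonneg_right _ (Nat.cast_nonneg _)
    rw [h5]
    nlinarith
  · have h6 : (√(n : ℝ) + 1) ^ 3 ≤ 8 * √(n : ℝ) ^ 3 := by
      have : √(n : ℝ) + 1 ≤ 2 * √n := by linarith
      calc (√(n : ℝ) + 1) ^ 3 ≤ (2 * √n) ^ 3 := by gcongr
        _ = 8 * √(n : ℝ) ^ 3 := by ring
    have h7 : √(n : ℝ) ^ 3 ≤ (n : ℝ) ^ 2 := by
      calc √(n : ℝ) ^ 3 ≤ √(n : ℝ) ^ 4 := pow_le_pow_right₀ h3 (by norm_num)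
        _ = (√(n : ℝ) ^ 2) ^ 2 := by ring
        _ = (n : ℝ) ^ 2 := by rw [h4]
    have h8 : (1 : ℝ) ≤ (n : ℝ) ^ 2 := one_le_pow₀ h1
    linarith

end Pool.Agent.Results.MP_eeb244_lc.SqrtCompetitive
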